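import Mathlib

namespace Pool.Agent.Lib.C58a9d8

variable {S K M : Type*} [Semifield S] [Field K] [AddCommMonoid M]

/-- The coefficientwise valuation `trop f = ∑ᵤ v(cᵤ) χᵘ` of `f = ∑ᵤ cᵤ χᵘ`. -/
noncomputable def trop (v : K →*₀ S) (f : AddMonoidAlgebra K M) : AddMonoidAlgebra S M :=
  AddMonoidAlgebra.ofCoeff (Finsupp.mapRange v (map_zero v) f.coeff)

/-- The bend relations of the elements of `J`: pairs `(φ, φ with the term at u deleted)`, for
`φ ∈ J` and `u` in the support of `φ`. -/
def bendRel (J : Set (AddMonoidAlgebra S M)) (x y : AddMonoidAlgebra S M) : Prop :=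
  ∃ φ ∈ J, ∃ u ∈ φ.coeff.support, x = φ ∧ y = φ.erase u

/-- `Bend J` is the smallest semiring congruence containing the bend relations of all elements
of `J`. -/
noncomputable def Bend (J : Set (AddMonoidAlgebra S M)) : RingCon (AddMonoidAlgebra S M) :=
  ringConGen (bendRel J)

end Pool.Agent.Lib.C58a9d8
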