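import Pool.Agent.Lib.C58a9d8.Defs

namespace Pool.Agent.Lib.C58a9d8

section Idem

variable {E : Type*} [CommSemiring E] (hE : ∀ a : E, a + a = a)

include hE

lemma le_mul {x y : E} (z : E) (h : x + y = y) : z * x + z * y = z * y := by
  rw [← mul_add, h]

lemma le_trans' {x y z : E} (h : x + y = y) (h' : y + z = z) : x + z = z := by
  rw [← h', ← add_assoc, h]

lemma le_mul_mul {x y z w : E} (h : x + y = y) (h' : z + w = w) : x * z + y * w = y * w := by
  refine le_trans' hE (y := y * z) ?_ ?_
  · rw [← add_mul, h]
  · rw [← mul_add, h']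

lemma le_pow {x y : E} (h : x + y = y) (n : ℕ) : x ^ n + y ^ n = y ^ n := by
  induction n with
  | zero => simpa using hE 1
  | succ n ih => rw [pow_succ, pow_succ]; exact le_mul_mul hE ih h

lemma sum_le {ι : Type*} {s : Finset ι} {f : ι → E} {z : E} (h : ∀ i ∈ s, f i + z = z) :
    ∑ i ∈ s, f i + z = z := by
  classical
  induction s using Finset.induction_on with
  | empty => simp
  | insert a s ha ih =>
    rw [Finset.sum_insert ha, add_assoc, ih fun i hi => h i (Finset.mem_insert_of_mem hi),
      h a (Finset.mem_insert_self a s)]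

lemma le_sum {ι : Type*} {s : Finset ι} {f : ι → E} {i : ι} (hi : i ∈ s) :
    f i + ∑ i ∈ s, f i = ∑ i ∈ s, f i := by
  classical
  rw [← Finset.add_sum_erase s f hi, ← add_assoc, hE]

lemma prod_le {ι : Type*} (s : Finset ι) (f : ι → E) (κ : ι → ℕ) {z : E}
    (h : ∀ i ∈ s, f i + z = z) :
    ∏ i ∈ s, f i ^ κ i + z ^ (∑ i ∈ s, κ i) = z ^ (∑ i ∈ s, κ i) := by
  classical
  induction s using Finset.induction_on with
  | empty => simpa using hE 1
  | insert a s ha ih =>
    rw [Finset.prod_insert ha, Finset.sum_insert ha, pow_add]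
    exact le_mul_mul hE (le_pow hE (h a (Finset.mem_insert_self a s)) _)
      (ih fun i hi => h i (Finset.mem_insert_of_mem hi))

lemma nat_le {x y : E} (h : x + y = y) (n : ℕ) : (n : E) * x + y = y := by
  induction n with
  | zero => simp
  | succ n ih => rw [Nat.cast_succ, add_mul, one_mul, add_assoc, h, ih]

/-- The basic identity in idempotent commutative semirings. -/
lemma pow_identity {ι : Type*} (s : Finset ι) (a : ι → E) {k : ℕ} (hk : 1 ≤ k) :
    (∑ i ∈ s, a i) ^ (s.card * k) * ∑ i ∈ s, a i ^ k = (∑ i ∈ s, a i) ^ (s.card * k + k) := by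
  classical
  set z := ∑ i ∈ s, a i with hz
  have h1 : (z ^ (s.card * k) * ∑ i ∈ s, a i ^ k) + z ^ (s.card * k + k) =
      z ^ (s.card * k + k) := by
    rw [pow_add]
    apply le_mul hE
    exact sum_le hE fun i hi => le_pow hE (le_sum hE hi) k
  have h2 : z ^ (s.card * k + k) + (z ^ (s.card * k) * ∑ i ∈ s, a i ^ k) =
      (z ^ (s.card * k) * ∑ i ∈ s, a i ^ k) := by
    conv_lhs =>
      rw [hz, Finset.sum_pow_eq_sum_piAntidiag, ← hz]
    apply sum_le hE
    intro κ hκ
    rw [Finset.mem_piAntidiag] at hκ
    apply nat_le hE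
    -- pigeonhole
    obtain ⟨i, hi, hik⟩ : ∃ i ∈ s, k ≤ κ i := by
      by_contra hcon
      push Not at hcon
      have h3 : s.sum κ ≤ s.card * (k - 1) := by
        rw [← smul_eq_mul]
        exact Finset.sum_le_card_nsmul s κ (k - 1) fun i hi => by
          have := hcon i hi
          omega
      rw [hκ.1] at h3
      have h4 : s.card * (k - 1) ≤ s.card * k := Nat.mul_le_mul_left _ (Nat.sub_le _ _)
      omega
    have h5 : ∏ j ∈ s, a j ^ κ j =
        (∏ j ∈ s, a j ^ (Function.update κ i (κ i - k)) j) * a i ^ k := by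
      rw [← Finset.mul_prod_erase s _ hi, ← Finset.mul_prod_erase s
        (fun j => a j ^ (Function.update κ i (κ i - k)) j) hi]
      have h6 : ∏ j ∈ s.erase i, a j ^ (Function.update κ i (κ i - k)) j =
          ∏ j ∈ s.erase i, a j ^ κ j := by
        apply Finset.prod_congr rfl
        intro j hj
        rw [Function.update_of_ne (Finset.ne_of_mem_erase hj)]
      rw [h6, Function.update_self]
      have h7 : a i ^ κ i = a i ^ (κ i - k) * a i ^ k := by
        rw [← pow_add, Nat.sub_add_cancel hik]
      rw [h7]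
      ring
    have h8 : ∑ j ∈ s, (Function.update κ i (κ i - k)) j = s.card * k := by
      have h9 : ∑ j ∈ s, κ j = s.card * k + k := hκ.1
      rw [← Finset.add_sum_erase s _ hi] at h9 ⊢
      have h6 : ∑ j ∈ s.erase i, (Function.update κ i (κ i - k)) j =
          ∑ j ∈ s.erase i, κ j := by
        apply Finset.sum_congr rfl
        intro j hj
        rw [Function.update_of_ne (Finset.ne_of_mem_erase hj)]
      rw [h6, Function.update_self]
      omega
    rw [h5]
    apply le_mul_mul hE
    · have := prod_le hE s a (Function.update κ i (κ i - k)) (z := z) fun i hi => le_sum hE hi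
      rwa [h8] at this
    · exact le_sum hE (f := fun i => a i ^ k) hi
  rw [← h1, add_comm, h2]

end Idem

open AddMonoidAlgebra

section Span

variable {S K M R : Type*} [Semifield S] [Field K] [AddCommMonoid M] [CommRing R] [Algebra K R]

lemma zero_of_add (hS : ∀ a : S, a + a = a) {a b : S} (h : a + b = 0) :
    a = 0 ∧ b = 0 := by
  constructor
  · calc a = a + (a + b) := by rw [h, add_zero]
      _ = 0 := by rw [← add_assoc, hS, h]
  · calc b = (a + b) + b := by rw [h, zero_add]
      _ = 0 := by rw [add_assoc, hS, h]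

variable (K R) in
open scoped Classical in
/-- The support map from `S` to the semiring of subspaces. -/
noncomputable def fHom (hS : ∀ a : S, a + a = a) : S →+* Submodule K R where
  toFun a := if a = 0 then 0 else 1
  map_one' := by simp
  map_zero' := by simp
  map_mul' a b := by
    by_cases ha : a = 0
    · simp [ha]
    · by_cases hb : b = 0
      · simp [hb]
      · simp [ha, hb]
  map_add' a b := by
    by_cases ha : a = 0
    · simp [ha]
    · by_cases hb : b = 0
      · simp [hb, ha]
      · have : a + b ≠ 0 := fun h => ha (zero_of_add hS h).1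
        simp [ha, hb, this]

variable (π : AddMonoidAlgebra K M →ₐ[K] R)

/-- The image of the monomial `χᵘ`. -/
noncomputable def X (u : M) : R := π (single u 1)

lemma X_add (u w : M) : X π (u + w) = X π u * X π w := by
  simp [X, ← map_mul, single_mul_single]

lemma X_zero : X π 0 = 1 := by
  simp [X, ← one_def]

/-- The lines spanned by the classes of monomials. -/
noncomputable def gHom : Multiplicative M →* Submodule K R where
  toFun u := Submodule.span K {X π u.toAdd}
  map_one' := by
    rw [Submodule.one_eq_span, toAdd_one, X_zero]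
  map_mul' u w := by
    rw [Submodule.span_mul_span, Set.singleton_mul_singleton, toAdd_mul, X_add]

/-- The semiring homomorphism sending `g` to the span of the classes of the monomials in its
support. -/
noncomputable def Phi (hS : ∀ a : S, a + a = a) : AddMonoidAlgebra S M →+* Submodule K R :=
  AddMonoidAlgebra.liftNCRingHom (fHom K R hS) (gHom π) (fun _ _ => Commute.all _ _)

lemma Phi_single (hS : ∀ a : S, a + a = a) (u : M) {a : S} (ha : a ≠ 0) :
    Phi π hS (single u a) = Submodule.span K {X π u} := by
  rw [Phi, AddMonoidAlgebra.liftNCRingHom_single]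
  simp [fHom, gHom, ha]

lemma Phi_eq (hS : ∀ a : S, a + a = a) (g : AddMonoidAlgebra S M) :
    Phi π hS g = Submodule.span K (X π '' (g.coeff.support : Set M)) := by
  classical
  induction g using AddMonoidAlgebra.induction with
  | zero => simp
  | single_add m r x hm hr ih =>
    rw [map_add, ih, Phi_single π hS m hr]
    have : (single m r + x).coeff.support = insert m x.coeff.support := by
      rw [coeff_add, coeff_single, Finsupp.support_single_add hm hr, Finset.cons_eq_insert]
    rw [this, Finset.coe_insert, Set.image_insert_eq, Submodule.span_insert]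
    rfl

lemma mk_eq_sum (f : AddMonoidAlgebra K M) :
    π f = ∑ u ∈ f.coeff.support, f.coeff u • X π u := by
  conv_lhs => rw [← sum_coeff_single f]
  rw [Finsupp.sum, map_sum]
  apply Finset.sum_congr rfl
  intro u _
  have h : (single u (f.coeff u) : AddMonoidAlgebra K M) = f.coeff u • single u 1 := by
    rw [smul_single, smul_eq_mul, mul_one]
  rw [h, map_smul, X]

omit [AddCommMonoid M] in
lemma support_trop (v : K →*₀ S) (f : AddMonoidAlgebra K M) :
    (trop v f).coeff.support = f.coeff.support := by
  ext u
  simp [trop]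

variable {π} {I : Ideal (AddMonoidAlgebra K M)}

lemma Phi_bend (hI : ∀ f ∈ I, π f = 0) (hS : ∀ a : S, a + a = a) (v : K →*₀ S)
    {x y : AddMonoidAlgebra S M}
    (h : bendRel (trop v '' I) x y) : Phi π hS x = Phi π hS y := by
  classical
  obtain ⟨_, ⟨f, hf, rfl⟩, u, hu, rfl, rfl⟩ := h
  rw [Phi_eq, Phi_eq, coeff_erase, Finsupp.support_erase]
  rw [support_trop] at hu ⊢
  apply le_antisymm
  · rw [Submodule.span_le]
    rintro _ ⟨w, hw, rfl⟩
    by_cases hwu : w = u
    · subst hwu
      have h2 : ∑ u ∈ f.coeff.support, f.coeff u • X π u = 0 := by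
        rw [← mk_eq_sum]
        exact hI f hf
      rw [← Finset.add_sum_erase _ _ hu] at h2
      have h3 : f.coeff w • X π w ∈
          Submodule.span K (X π '' ((f.coeff.support.erase w : Finset M) : Set M)) := by
        rw [eq_neg_of_add_eq_zero_left h2]
        apply Submodule.neg_mem
        apply Submodule.sum_mem
        intro w' hw'
        exact Submodule.smul_mem _ _ (Submodule.subset_span ⟨w', hw', rfl⟩)
      have h4 : f.coeff w ≠ 0 := by simpa using hu
      have h5 := Submodule.smul_mem _ (f.coeff w)⁻¹ h3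
      rwa [smul_smul, inv_mul_cancel₀ h4, one_smul] at h5
    · exact Submodule.subset_span ⟨w, Finset.mem_coe.2 (Finset.mem_erase.2 ⟨hwu, hw⟩), rfl⟩
  · exact Submodule.span_mono (Set.image_mono (Finset.coe_subset.2 (Finset.erase_subset _ _)))

lemma Phi_of_Bend (hI : ∀ f ∈ I, π f = 0) (hS : ∀ a : S, a + a = a) (v : K →*₀ S)
    {x y : AddMonoidAlgebra S M}
    (h : Bend (trop v '' I) x y) : Phi π hS x = Phi π hS y := by
  have h1 : Bend (trop v '' I) ≤ RingCon.ker (Phi π hS) := by
    rw [Bend, RingCon.ringConGen_le]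
    intro x y hxy
    exact Phi_bend hI hS v hxy
  exact h1 h

omit [Field K] [AddCommMonoid M] [CommRing R] [Algebra K R] in
lemma exists_scalar (hS : ∀ a : S, a + a = a) {ι : Type*} (s : Finset ι) (p q : ι → S)
    (hq : ∀ i ∈ s, q i ≠ 0) : ∃ c : S, c ≠ 0 ∧ ∀ i ∈ s, c * p i + q i = q i := by
  classical
  set t : S := 1 + ∑ i ∈ s, p i / q i with ht
  have ht0 : t ≠ 0 := fun h => one_ne_zero (zero_of_add hS h).1
  refine ⟨t⁻¹, inv_ne_zero ht0, fun i hi => ?_⟩
  have h1 : p i / q i + t = t := by
    have h2 := le_sum hS (f := fun i => p i / q i) hi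
    calc p i / q i + t = 1 + (p i / q i + ∑ i ∈ s, p i / q i) := by rw [ht]; ring
      _ = t := by rw [h2]
  have h3 : t⁻¹ * p i = q i * (t⁻¹ * (p i / q i)) := by
    rw [mul_left_comm, mul_div_cancel₀ _ (hq i hi)]
  calc t⁻¹ * p i + q i = q i * (t⁻¹ * (p i / q i) + t⁻¹ * t) := by
        rw [h3, inv_mul_cancel₀ ht0, mul_add, mul_one]
    _ = q i := by rw [← mul_add, h1, inv_mul_cancel₀ ht0, mul_one]

/-- If the class of `χʷ` lies in the span attached to `h`, a multiple of `χʷ` is absorbed by `h`
modulo the bend relations. -/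
lemma absorb_single (hI : ∀ f, π f = 0 → f ∈ I) (hS : ∀ a : S, a + a = a) (v : K →*₀ S)
    (h : AddMonoidAlgebra S M) (w : M) (hw : X π w ∈ Phi π hS h) :
    ∃ c : S, c ≠ 0 ∧ Bend (trop v '' I) (single w c + h) h := by
  classical
  by_cases hws : w ∈ h.coeff.support
  · refine ⟨h.coeff w, by simpa using hws, ?_⟩
    have : single w (h.coeff w) + h = h := by
      conv_lhs => rw [← single_add_erase w h, ← add_assoc]
      rw [coeff_add, Finsupp.add_apply]
      simp only [coeff_single, Finsupp.single_eq_same, coeff_erase, Finsupp.erase_same, add_zero]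
      rw [← single_add, hS, single_add_erase]
    rw [this]
    exact (Bend _).refl h
  · rw [Phi_eq, Submodule.mem_span_image_finset_iff_exists_fun'] at hw
    obtain ⟨d, hd⟩ := hw
    let f : AddMonoidAlgebra K M := single w 1 + ∑ u ∈ h.coeff.support, single u (-d u)
    have hfI : f ∈ I := by
      apply hI
      simp only [f, map_add, map_sum]
      have h1 : ∀ u, π (single u (-d u)) = -(d u • X π u) := by
        intro u
        have : (single u (-d u) : AddMonoidAlgebra K M) = (-d u) • single u 1 := by
          rw [smul_single, smul_eq_mul, mul_one]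
        rw [this, map_smul, neg_smul, X]
      simp only [h1, Finset.sum_neg_distrib]
      rw [hd, X, add_neg_cancel]
    have hfw : f.coeff w = 1 := by
      simp only [f, coeff_add, coeff_single, coeff_sum, Finsupp.add_apply,
        Finsupp.single_eq_same, Finsupp.finsetSum_apply]
      rw [Finset.sum_eq_zero, add_zero]
      intro u hu
      rw [Finsupp.single_eq_of_ne]
      rintro rfl
      exact hws hu
    have hfu : ∀ u, u ≠ w → u ∉ h.coeff.support → f.coeff u = 0 := by
      intro u hu hus
      simp only [f, coeff_add, coeff_single, coeff_sum, Finsupp.add_apply,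
        Finsupp.finsetSum_apply]
      rw [Finsupp.single_eq_of_ne hu, zero_add]
      apply Finset.sum_eq_zero
      intro u' hu'
      rw [Finsupp.single_eq_of_ne]
      rintro rfl
      exact hus hu'
    obtain ⟨c, hc0, hc⟩ := exists_scalar hS h.coeff.support (fun u => v (f.coeff u))
      (fun u => h.coeff u) (fun u hu => by simpa using hu)
    refine ⟨c, hc0, ?_⟩
    have hw' : w ∈ (trop v f).coeff.support := by
      rw [support_trop, Finsupp.mem_support_iff, hfw]
      exact one_ne_zero
    have hb : Bend (trop v '' I) (trop v f) ((trop v f).erase w) :=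
      RingCon.le_ringConGen _ _ ⟨_, ⟨f, hfI, rfl⟩, w, hw', rfl, rfl⟩
    have hb2 := (Bend (trop v '' (I : Set (AddMonoidAlgebra K M)))).add
      ((Bend (trop v '' (I : Set (AddMonoidAlgebra K M)))).mul ((Bend (trop v '' (I : Set (AddMonoidAlgebra K M)))).refl (single 0 c)) hb)
      ((Bend (trop v '' (I : Set (AddMonoidAlgebra K M)))).refl h)
    have e1 : single 0 c * trop v f + h = single w c + h := by
      ext u
      rw [coeff_add, coeff_add, Finsupp.add_apply, Finsupp.add_apply, coeff_single_zero_mul]
      simp only [trop, Finsupp.mapRange_apply, coeff_single]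
      by_cases hu : u = w
      · subst hu
        rw [hfw, map_one, mul_one, Finsupp.single_eq_same]
      · rw [Finsupp.single_eq_of_ne hu, zero_add]
        by_cases hus : u ∈ h.coeff.support
        · exact hc u hus
        · rw [hfu u hu hus, map_zero, mul_zero, zero_add]
    have e2 : single 0 c * (trop v f).erase w + h = h := by
      ext u
      rw [coeff_add, Finsupp.add_apply, coeff_single_zero_mul]
      simp only [trop, coeff_erase]
      by_cases hu : u = w
      · subst hu
        rw [Finsupp.erase_same, mul_zero, zero_add]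
      · rw [Finsupp.erase_ne hu, Finsupp.mapRange_apply]
        by_cases hus : u ∈ h.coeff.support
        · exact hc u hus
        · rw [hfu u hu hus, map_zero, mul_zero, zero_add]
    rwa [e1, e2] at hb2

lemma absorb (hI : ∀ f, π f = 0 → f ∈ I) (hS : ∀ a : S, a + a = a) (v : K →*₀ S)
    (h q : AddMonoidAlgebra S M) (hq : Phi π hS q ≤ Phi π hS h) :
    ∃ c : S, c ≠ 0 ∧ Bend (trop v '' I) (single 0 c * q + h) h := by
  classical
  have h1 : ∀ w : M, ∃ c : S, c ≠ 0 ∧ (w ∈ q.coeff.support →
      Bend (trop v '' I) (single w c + h) h) := by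
    intro w
    by_cases hw : w ∈ q.coeff.support
    · have : X π w ∈ Phi π hS q := by
        rw [Phi_eq]
        exact Submodule.subset_span ⟨w, hw, rfl⟩
      obtain ⟨c, hc, hc'⟩ := absorb_single hI hS v h w (hq this)
      exact ⟨c, hc, fun _ => hc'⟩
    · exact ⟨1, one_ne_zero, fun h => absurd h hw⟩
  choose C hC0 hC using h1
  obtain ⟨c, hc0, hc⟩ := exists_scalar hS q.coeff.support (fun w => q.coeff w) C
    (fun w _ => hC0 w)
  refine ⟨c, hc0, ?_⟩
  have h2 : ∀ w ∈ q.coeff.support,
      Bend (trop v '' I) (single w (c * q.coeff w) + h) h := by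
    intro w hw
    have h3 := (Bend (trop v '' (I : Set (AddMonoidAlgebra K M)))).add
      ((Bend (trop v '' (I : Set (AddMonoidAlgebra K M)))).refl (single w (c * q.coeff w))) (hC w hw)
    rw [← add_assoc, ← single_add, hc w hw] at h3
    exact (Bend (trop v '' (I : Set (AddMonoidAlgebra K M)))).trans ((Bend (trop v '' (I : Set (AddMonoidAlgebra K M)))).symm h3) (hC w hw)
  have h4 : single 0 c * q = ∑ w ∈ q.coeff.support, single w (c * q.coeff w) := by
    conv_lhs => rw [← sum_coeff_single q]
    rw [Finsupp.sum, Finset.mul_sum]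
    apply Finset.sum_congr rfl
    intro w _
    rw [single_mul_single, zero_add]
  rw [h4]
  have h5 : ∀ s : Finset M, s ⊆ q.coeff.support →
      Bend (trop v '' I) (∑ w ∈ s, single w (c * q.coeff w) + h) h := by
    intro s
    induction s using Finset.induction_on with
    | empty => intro _; simpa using (Bend (trop v '' (I : Set (AddMonoidAlgebra K M)))).refl h
    | insert w s hws ih =>
      intro hs
      rw [Finset.sum_insert hws, add_assoc]
      have h6 := (Bend (trop v '' (I : Set (AddMonoidAlgebra K M)))).add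
        ((Bend (trop v '' (I : Set (AddMonoidAlgebra K M)))).refl (single w (c * q.coeff w)))
        (ih ((Finset.subset_insert _ _).trans hs))
      exact (Bend (trop v '' (I : Set (AddMonoidAlgebra K M)))).trans h6 (h2 w (hs (Finset.mem_insert_self _ _)))
  exact h5 _ subset_rfl

omit [AddCommMonoid M] in
lemma sum_span {ι : Type*} (s : Finset ι) (y : ι → R) :
    ∑ u ∈ s, Submodule.span K {y u} = Submodule.span K (y '' (s : Set ι)) := by
  classical
  induction s using Finset.induction_on with
  | empty => simp
  | insert a s ha ih =>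
    rw [Finset.sum_insert ha, ih, Finset.coe_insert, Set.image_insert_eq, Submodule.span_insert]
    rfl

omit [AddCommMonoid M] in
lemma span_mul_eq_map (a : R) (W : Submodule K R) :
    Submodule.span K {a} * W = W.map (LinearMap.mulLeft K a) := by
  ext x
  rw [Submodule.mem_span_singleton_mul, Submodule.mem_map]
  rfl

omit [AddCommMonoid M] in
lemma finrank_span_mul [IsDomain R] {a : R} (ha : a ≠ 0) (W : Submodule K R) :
    Module.finrank K (Submodule.span K {a} * W : Submodule K R) = Module.finrank K W := by
  rw [span_mul_eq_map]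
  exact (Submodule.equivMapOfInjective (LinearMap.mulLeft K a)
    (fun x y h => mul_left_cancel₀ ha h) W).finrank_eq.symm

omit [Field K] [AddCommMonoid M] [CommRing R] [Algebra K R] [Semifield S] in
lemma cancel_pow {A : Type*} [CommMonoid A] {x : A} (hx : ∀ a b : A, x * a = x * b → a = b)
    (n : ℕ) : ∀ a b : A, x ^ n * a = x ^ n * b → a = b := by
  induction n with
  | zero => intro a b h; simpa using h
  | succ n ih =>
    intro a b h
    rw [pow_succ', mul_assoc, mul_assoc] at h
    exact ih a b (hx _ _ h)

/-- The key contradiction. -/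
lemma false_of_two [IsDomain R] (hI : ∀ f, π f = 0 ↔ f ∈ I) (hS : ∀ a : S, a + a = a)
    (v : K →*₀ S)
    (hmon : ∀ (c : K) (u : M), c ≠ 0 → single u c ∉ I)
    (hbin : ∀ (c d : K) (u w : M), c ≠ 0 → d ≠ 0 → u ≠ w → single u c + single w d ∉ I)
    (g : AddMonoidAlgebra S M)
    (hg : ∀ a b : (Bend (trop v '' (I : Set (AddMonoidAlgebra K M)))).Quotient,
      (g : (Bend (trop v '' (I : Set (AddMonoidAlgebra K M)))).Quotient) * a =
      (g : (Bend (trop v '' (I : Set (AddMonoidAlgebra K M)))).Quotient) * b → a = b)
    (u₁ u₂ : M) (hu : u₁ ≠ u₂) (h1 : u₁ ∈ g.coeff.support) (h2 : u₂ ∈ g.coeff.support) :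
    False := by
  classical
  set B := Bend (trop v '' (I : Set (AddMonoidAlgebra K M))) with hB
  have hX0 : ∀ u, X π u ≠ 0 := fun u h => hmon 1 u one_ne_zero ((hI _).1 h)
  have hIdem : ∀ a : AddMonoidAlgebra S M, a + a = a := by
    intro a
    ext u
    simp [hS]
  set V : Submodule K R := Phi π hS g with hV
  set n := g.coeff.support.card with hn
  have hgsum : ∑ u ∈ g.coeff.support, single u (g.coeff u) = g := by
    conv_rhs => rw [← sum_coeff_single g]
    rfl
  -- the powers of `V`
  have hVk : ∀ k, 1 ≤ k → V ^ k =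
      Submodule.span K ((fun u => X π u ^ k) '' (g.coeff.support : Set M)) := by
    intro k hk
    have h3 := pow_identity hIdem g.coeff.support (fun u => single u (g.coeff u)) hk
    rw [hgsum, pow_add] at h3
    have h4 : B (∑ u ∈ g.coeff.support, single u (g.coeff u) ^ k) (g ^ k) := by
      rw [← RingCon.eq]
      apply cancel_pow hg (g.coeff.support.card * k)
      have h5 := congrArg (fun z : AddMonoidAlgebra S M => (z : B.Quotient)) h3
      simpa only [RingCon.coe_mul, RingCon.coe_pow] using h5
    have h6 := Phi_of_Bend (fun f hf => (hI f).2 hf) hS v h4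
    rw [map_pow, map_sum] at h6
    rw [hV, ← h6, ← sum_span]
    apply Finset.sum_congr rfl
    intro u hu
    rw [map_pow, Phi_single π hS u (by simpa using hu), Submodule.span_pow, Set.singleton_pow]
  have hfg : ∀ k, (V ^ k).FG := by
    intro k
    apply Submodule.FG.pow
    rw [hV, Phi_eq]
    exact Submodule.fg_span (Set.Finite.image _ (Finset.finite_toSet _))
  have hfd : ∀ k, FiniteDimensional K (V ^ k : Submodule K R) := fun k =>
    Module.Finite.iff_fg.2 (hfg k)
  have hbound : ∀ k, 1 ≤ k → Module.finrank K (V ^ k : Submodule K R) ≤ n := by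
    intro k hk
    rw [hVk k hk, ← Finset.coe_image]
    exact (finrank_span_finset_le_card _).trans Finset.card_image_le
  have hle : ∀ u ∈ g.coeff.support, ∀ k, Submodule.span K {X π u} * V ^ k ≤ V ^ (k + 1) := by
    intro u hu k
    rw [pow_succ']
    refine mul_le_mul' ?_ le_rfl
    rw [hV, Phi_eq]
    apply Submodule.span_mono
    rintro _ rfl
    exact ⟨u, hu, rfl⟩
  have hmono : ∀ k, Module.finrank K (V ^ k : Submodule K R) ≤
      Module.finrank K (V ^ (k + 1) : Submodule K R) := by
    intro k
    rw [← finrank_span_mul (K := K) (hX0 u₁) (V ^ k)]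
    have := hfd (k + 1)
    exact Submodule.finrank_mono (hle u₁ h1 k)
  obtain ⟨k, hk⟩ : ∃ k, Module.finrank K (V ^ k : Submodule K R) =
      Module.finrank K (V ^ (k + 1) : Submodule K R) := by
    by_contra hcon
    push Not at hcon
    have h3 : ∀ k, k ≤ Module.finrank K (V ^ k : Submodule K R) := by
      intro k
      induction k with
      | zero => exact Nat.zero_le _
      | succ k ih =>
        have := hmono k
        have := hcon k
        omega
    have h4 := h3 (n + 1)
    have h5 := hbound (n + 1) (by omega)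
    omega
  have heq : ∀ u ∈ g.coeff.support, Submodule.span K {X π u} * V ^ k = V ^ (k + 1) := by
    intro u hu
    have := hfd (k + 1)
    apply Submodule.eq_of_le_of_finrank_eq (hle u hu k)
    rw [finrank_span_mul (K := K) (hX0 u), hk]
  -- absorption
  have h3 : Phi π hS (single u₁ 1 * g ^ k) ≤ Phi π hS (single u₂ 1 * g ^ k) := by
    rw [map_mul, map_mul, map_pow, Phi_single π hS u₁ one_ne_zero,
      Phi_single π hS u₂ one_ne_zero, ← hV, heq u₁ h1, heq u₂ h2]
  obtain ⟨c, hc0, hc⟩ := absorb (fun f hf => (hI f).1 hf) hS v _ _ h3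
  have h4 : B (single u₁ c + single u₂ 1) (single u₂ 1) := by
    rw [← RingCon.eq]
    apply cancel_pow hg k
    rw [← RingCon.eq] at hc
    have e1 : single 0 c * (single u₁ 1 * g ^ k) + single u₂ 1 * g ^ k =
        g ^ k * (single u₁ c + single u₂ 1) := by
      have : (single u₁ c : AddMonoidAlgebra S M) = single 0 c * single u₁ 1 := by
        rw [single_mul_single, zero_add, mul_one]
      rw [this]
      ring
    rw [e1, mul_comm (single u₂ 1) (g ^ k)] at hc
    simpa only [RingCon.coe_mul, RingCon.coe_pow] using hc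
  have h5 := Phi_of_Bend (fun f hf => (hI f).2 hf) hS v h4
  rw [map_add, Phi_single π hS u₁ hc0, Phi_single π hS u₂ one_ne_zero] at h5
  have h6 : X π u₁ ∈ Submodule.span K {X π u₂} := by
    rw [← h5]
    exact Submodule.mem_sup_left (Submodule.mem_span_singleton_self _)
  obtain ⟨d, hd⟩ := Submodule.mem_span_singleton.1 h6
  have h7 : single u₁ 1 + single u₂ (-d) ∈ I := by
    rw [← hI, map_add]
    have h8 : (single u₂ (-d) : AddMonoidAlgebra K M) = (-d) • single u₂ 1 := by
      rw [smul_single, smul_eq_mul, mul_one]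
    rw [h8, map_smul, neg_smul]
    change X π u₁ + -(d • X π u₂) = 0
    rw [hd, add_neg_cancel]
  by_cases hd0 : d = 0
  · subst hd0
    rw [neg_zero, single_zero, add_zero] at h7
    exact hmon 1 u₁ one_ne_zero h7
  · exact hbin 1 (-d) u₁ u₂ one_ne_zero (neg_ne_zero.2 hd0) hu h7

end Span

section Ball

variable {S K M R : Type*} [Semifield S] [Field K] [AddCommMonoid M] [CommRing R] [Algebra K R]
variable (π : AddMonoidAlgebra K M →ₐ[K] R) (v : K →*₀ S)

/-- The elements of `R` having a representative whose coefficients are bounded by `s g`. -/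
def ball (g : AddMonoidAlgebra S M) (s : S) : Set R :=
  {r | ∃ f : AddMonoidAlgebra K M, π f = r ∧
    ∀ u, v (f.coeff u) + s * g.coeff u = s * g.coeff u}

variable {π v}

lemma idem_of (hS : ∀ a b : S, a + b = a ∨ a + b = b) (a : S) : a + a = a := by
  simpa using hS a a

omit [AddCommMonoid M] [CommRing R] [Algebra K R] in
lemma v_neg_one (hS : ∀ a b : S, a + b = a ∨ a + b = b) : v (-1) = 1 := by
  have h1 : v (-1) * v (-1) = 1 := by rw [← map_mul]; simp
  rcases hS (v (-1)) 1 with h | h
  · have h2 : v (-1) * (v (-1) + 1) = v (-1) * v (-1) := by rw [h]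
    rw [mul_add, h1, mul_one] at h2
    rw [← h, add_comm, h2]
  · have h2 : v (-1) * (v (-1) + 1) = v (-1) * 1 := by rw [h]
    rw [mul_add, h1, mul_one] at h2
    rw [← h2, add_comm, h]

omit [AddCommMonoid M] [CommRing R] [Algebra K R] in
lemma v_neg (hS : ∀ a b : S, a + b = a ∨ a + b = b) (x : K) : v (-x) = v x := by
  rw [← neg_one_mul, map_mul, v_neg_one hS, one_mul]

lemma ball_add (hS : ∀ a b : S, a + b = a ∨ a + b = b)
    (hv : ∀ a b : K, v (a + b) + (v a + v b) = v a + v b)
    (g h : AddMonoidAlgebra S M) (s : S) (r : R) :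
    r ∈ ball π v (g + h) s ↔ ∃ r₁ ∈ ball π v g s, ∃ r₂ ∈ ball π v h s, r = r₁ + r₂ := by
  classical
  constructor
  · rintro ⟨f, rfl, hf⟩
    let p : M → Prop := fun u => v (f.coeff u) + s * g.coeff u = s * g.coeff u
    let f₁ : AddMonoidAlgebra K M := ofCoeff (Finsupp.filter p f.coeff)
    let f₂ : AddMonoidAlgebra K M := ofCoeff (Finsupp.filter (fun u => ¬ p u) f.coeff)
    have hf12 : f = f₁ + f₂ := by
      ext u
      rw [coeff_add, Finsupp.add_apply]
      by_cases hp : p u
      · simp [f₁, f₂, hp]
      · simp [f₁, f₂, hp]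
    refine ⟨π f₁, ⟨f₁, rfl, fun u => ?_⟩, π f₂, ⟨f₂, rfl, fun u => ?_⟩, by rw [← map_add, ← hf12]⟩
    · by_cases hp : p u
      · have h1 : f₁.coeff u = f.coeff u := by simp [f₁, hp]
        rw [h1]
        exact hp
      · simp [f₁, hp]
    · by_cases hp : p u
      · simp [f₂, hp]
      · have h1 := hf u
        rw [coeff_add, Finsupp.add_apply] at h1
        rcases hS (g.coeff u) (h.coeff u) with h2 | h2
        · rw [h2] at h1
          exact absurd h1 hp
        · rw [h2] at h1
          have h3 : f₂.coeff u = f.coeff u := by simp [f₂, hp]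
          rw [h3]
          exact h1
  · rintro ⟨_, ⟨f₁, rfl, h1⟩, _, ⟨f₂, rfl, h2⟩, rfl⟩
    refine ⟨f₁ + f₂, map_add _ _ _, fun u => ?_⟩
    rw [coeff_add, coeff_add, Finsupp.add_apply, Finsupp.add_apply]
    have h3 := hv (f₁.coeff u) (f₂.coeff u)
    have h4 : (v (f₁.coeff u) + v (f₂.coeff u)) + s * (g.coeff u + h.coeff u) =
        s * (g.coeff u + h.coeff u) := by
      calc (v (f₁.coeff u) + v (f₂.coeff u)) + s * (g.coeff u + h.coeff u)
          = (v (f₁.coeff u) + s * g.coeff u) + (v (f₂.coeff u) + s * h.coeff u) := by ring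
        _ = s * (g.coeff u + h.coeff u) := by rw [h1, h2]; ring
    rw [← h4, ← add_assoc, h3]

lemma eq_zero_of_le_zero {x : K} (h : v x + 0 = 0) : x = 0 := by
  rw [add_zero] at h
  exact (map_eq_zero v).1 h

lemma ball_single_mul (hM : ∀ m u w : M, m + u = m + w → u = w)
    (m : M) (a : S) (h : AddMonoidAlgebra S M) (s : S) (r : R) :
    r ∈ ball π v (single m a * h) s ↔ ∃ r' ∈ ball π v h (s * a), r = X π m * r' := by
  classical
  have hco : ∀ (b : S) (x : AddMonoidAlgebra S M) (u : M),
      (single m b * x).coeff (m + u) = b * x.coeff u := fun b x u =>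
    coeff_single_mul_eq_mul_coeff _ (fun u' _ => ⟨fun h => hM m _ _ h, fun h => by rw [h]⟩)
  have hco' : ∀ (b : K) (x : AddMonoidAlgebra K M) (u : M),
      (single m b * x).coeff (m + u) = b * x.coeff u := fun b x u =>
    coeff_single_mul_eq_mul_coeff _ (fun u' _ => ⟨fun h => hM m _ _ h, fun h => by rw [h]⟩)
  constructor
  · rintro ⟨F, rfl, hF⟩
    have hF0 : ∀ w, (∀ u, m + u ≠ w) → F.coeff w = 0 := by
      intro w hw
      have h1 := hF w
      rw [coeff_single_mul_of_forall_add_ne _ _ hw, mul_zero] at h1
      exact eq_zero_of_le_zero h1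
    let f : AddMonoidAlgebra K M :=
      ofCoeff (F.coeff.comapDomain (fun u => m + u) (fun u _ w _ h => hM m u w h))
    have hfF : single m 1 * f = F := by
      ext w
      by_cases hw : ∃ u, m + u = w
      · obtain ⟨u, rfl⟩ := hw
        rw [hco', one_mul]
        rfl
      · push Not at hw
        rw [coeff_single_mul_of_forall_add_ne _ _ hw, hF0 w hw]
    refine ⟨π f, ⟨f, rfl, fun u => ?_⟩, by rw [← hfF, map_mul]; rfl⟩
    have h1 := hF (m + u)
    rw [hco, ← mul_assoc] at h1
    exact h1
  · rintro ⟨_, ⟨f, rfl, hf⟩, rfl⟩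
    refine ⟨single m 1 * f, by rw [map_mul]; rfl, fun w => ?_⟩
    by_cases hw : ∃ u, m + u = w
    · obtain ⟨u, rfl⟩ := hw
      rw [hco, hco', one_mul, ← mul_assoc]
      exact hf u
    · push Not at hw
      rw [coeff_single_mul_of_forall_add_ne _ _ hw, coeff_single_mul_of_forall_add_ne _ _ hw]
      simp

lemma ball_mul (hS : ∀ a b : S, a + b = a ∨ a + b = b)
    (hv : ∀ a b : K, v (a + b) + (v a + v b) = v a + v b)
    (hM : ∀ m u w : M, m + u = m + w → u = w)
    {h h' : AddMonoidAlgebra S M} (hh : ∀ s, ball π v h s = ball π v h' s)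
    (g : AddMonoidAlgebra S M) : ∀ s, ball π v (g * h) s = ball π v (g * h') s := by
  induction g using AddMonoidAlgebra.induction_linear with
  | zero => intro s; simp
  | add x y hx hy =>
    intro s
    ext r
    rw [add_mul, add_mul, ball_add hS hv, ball_add hS hv, hx, hy]
  | single m a =>
    intro s
    ext r
    rw [ball_single_mul hM, ball_single_mul hM, hh]

/-- The congruence defined by the balls. -/
def ballCon (hS : ∀ a b : S, a + b = a ∨ a + b = b)
    (hv : ∀ a b : K, v (a + b) + (v a + v b) = v a + v b)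
    (hM : ∀ m u w : M, m + u = m + w → u = w) : RingCon (AddMonoidAlgebra S M) where
  r g h := ∀ s, ball π v g s = ball π v h s
  iseqv := ⟨fun _ _ => rfl, fun h s => (h s).symm, fun h h' s => (h s).trans (h' s)⟩
  add' := by
    intro w x y z h1 h2 s
    ext r
    rw [ball_add hS hv, ball_add hS hv, h1, h2]
  mul' := by
    intro w x y z h1 h2 s
    rw [ball_mul hS hv hM h2 w s, mul_comm w z, ball_mul hS hv hM h1 z s, mul_comm z x]

variable {I : Ideal (AddMonoidAlgebra K M)}

lemma ball_bend (hI : ∀ f, π f = 0 ↔ f ∈ I) (hS : ∀ a b : S, a + b = a ∨ a + b = b)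
    (hv : ∀ a b : K, v (a + b) + (v a + v b) = v a + v b)
    {x y : AddMonoidAlgebra S M} (h : bendRel (trop v '' (I : Set (AddMonoidAlgebra K M))) x y)
    (s : S) : ball π v x s = ball π v y s := by
  classical
  obtain ⟨_, ⟨F, hF, rfl⟩, u, hu, rfl, rfl⟩ := h
  rw [support_trop, Finsupp.mem_support_iff] at hu
  ext r
  constructor
  · rintro ⟨f, rfl, hf⟩
    simp only [trop, Finsupp.mapRange_apply] at hf
    set c : K := -(f.coeff u) / F.coeff u with hc
    refine ⟨f + c • F, by rw [map_add, map_smul, (hI F).2 hF, smul_zero, add_zero], fun w => ?_⟩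
    have hcs : v c + s = s := by
      have h1 := hf u
      have h2 : v c * v (F.coeff u) = v (f.coeff u) := by
        rw [← map_mul, hc, div_mul_cancel₀ _ hu, v_neg hS]
      rw [← h2, ← add_mul] at h1
      exact mul_right_cancel₀ ((map_ne_zero v).2 hu) h1
    rw [coeff_add, Finsupp.add_apply, coeff_smul, Finsupp.smul_apply, smul_eq_mul]
    simp only [trop, coeff_erase]
    by_cases hw : w = u
    · subst hw
      rw [Finsupp.erase_same, hc, div_mul_cancel₀ _ hu, add_neg_cancel, map_zero]
      simp
    · rw [Finsupp.erase_ne hw, Finsupp.mapRange_apply]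
      have h1 := hv (f.coeff w) (c * F.coeff w)
      have h2 : (v (f.coeff w) + v (c * F.coeff w)) + s * v (F.coeff w) =
          s * v (F.coeff w) := by
        rw [add_assoc, map_mul, ← add_mul, hcs, hf w]
      rw [← h2, ← add_assoc, h1]
  · rintro ⟨f, rfl, hf⟩
    refine ⟨f, rfl, fun w => ?_⟩
    have h1 := hf w
    simp only [trop, coeff_erase, Finsupp.mapRange_apply] at h1 ⊢
    by_cases hw : w = u
    · subst hw
      rw [Finsupp.erase_same, mul_zero] at h1
      rw [eq_zero_of_le_zero h1, map_zero, zero_add]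
    · rwa [Finsupp.erase_ne hw, Finsupp.mapRange_apply] at h1

lemma ball_of_Bend (hI : ∀ f, π f = 0 ↔ f ∈ I) (hS : ∀ a b : S, a + b = a ∨ a + b = b)
    (hv : ∀ a b : K, v (a + b) + (v a + v b) = v a + v b)
    (hM : ∀ m u w : M, m + u = m + w → u = w)
    {x y : AddMonoidAlgebra S M} (h : Bend (trop v '' (I : Set (AddMonoidAlgebra K M))) x y) :
    ∀ s, ball π v x s = ball π v y s := by
  have h1 : Bend (trop v '' (I : Set (AddMonoidAlgebra K M))) ≤
      ballCon (π := π) (v := v) hS hv hM := by
    rw [Bend, RingCon.ringConGen_le]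
    intro x y hxy s
    exact ball_bend hI hS hv hxy s
  exact h1 h

/-- The term of `g` at `u` is absorbed by `h` if it lies in the corresponding ball. -/
lemma absorb_term (hI : ∀ f, π f = 0 ↔ f ∈ I) (hS : ∀ a b : S, a + b = a ∨ a + b = b)
    (hv : ∀ a b : K, v (a + b) + (v a + v b) = v a + v b)
    (h : AddMonoidAlgebra S M) (u : M) (c : S) (hc : c ≠ 0)
    (hu : X π u ∈ ball π v h c⁻¹) :
    Bend (trop v '' (I : Set (AddMonoidAlgebra K M))) (single u c + h) h := by
  classical
  by_cases hch : c + h.coeff u = h.coeff u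
  · have : single u c + h = h := by
      ext w
      rw [coeff_add, Finsupp.add_apply, coeff_single]
      by_cases hw : w = u
      · subst hw
        rw [Finsupp.single_eq_same, hch]
      · rw [Finsupp.single_eq_of_ne hw, zero_add]
    rw [this]
    exact (Bend _).refl h
  · have hch' : c + h.coeff u = c := (hS c (h.coeff u)).resolve_right hch
    obtain ⟨f, hf1, hf2⟩ := hu
    let F : AddMonoidAlgebra K M := single u 1 + (-1 : K) • f
    have hFI : F ∈ I := by
      rw [← hI]
      change π (single u 1 + (-1 : K) • f) = 0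
      rw [map_add, map_smul, hf1, neg_smul, one_smul]
      exact add_neg_cancel (X π u)
    have hcc : c * c⁻¹ = 1 := mul_inv_cancel₀ hc
    have hbd : ∀ w, c * v (f.coeff w) + h.coeff w = h.coeff w := by
      intro w
      have h1 := congrArg (fun z => c * z) (hf2 w)
      simp only [mul_add, ← mul_assoc, hcc, one_mul] at h1
      exact h1
    have hFu : v (F.coeff u) = 1 := by
      have h1 : F.coeff u = 1 + -(f.coeff u) := by
        simp [F]
      have h2 : v (f.coeff u) + 1 = 1 := by
        apply mul_left_cancel₀ hc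
        rw [mul_add, mul_one]
        calc c * v (f.coeff u) + c = c * v (f.coeff u) + (c + h.coeff u) := by rw [hch']
          _ = c + (c * v (f.coeff u) + h.coeff u) := by ring
          _ = c := by rw [hbd, hch']
      have h3 : v (f.coeff u) + 1 ≠ v (f.coeff u) := by
        intro h4
        apply hch
        calc c + h.coeff u = c + (c * v (f.coeff u) + h.coeff u) := by rw [hbd]
          _ = c * (v (f.coeff u) + 1) + h.coeff u := by ring
          _ = h.coeff u := by rw [h4, hbd]
      have h4 : v (F.coeff u) + (v (1 : K) + v (-(f.coeff u))) = v (1 : K) + v (-(f.coeff u)) := by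
        rw [h1]; exact hv _ _
      rw [v_neg hS, map_one, add_comm 1 (v (f.coeff u)), h2] at h4
      have h5 : v (F.coeff u + f.coeff u) + (v (F.coeff u) + v (f.coeff u)) =
          v (F.coeff u) + v (f.coeff u) := hv _ _
      have h6 : F.coeff u + f.coeff u = 1 := by rw [h1]; ring
      rw [h6, map_one] at h5
      rcases hS (v (F.coeff u)) (v (f.coeff u)) with h7 | h7
      · rw [h7] at h5
        rw [← h4, add_comm, h5]
      · rw [h7, add_comm] at h5
        exact absurd h5 h3
    have huF : u ∈ (trop v F).coeff.support := by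
      rw [support_trop, Finsupp.mem_support_iff]
      intro h0
      rw [h0, map_zero] at hFu
      exact zero_ne_one hFu
    have hFw : ∀ w, w ≠ u → v (F.coeff w) = v (f.coeff w) := by
      intro w hw
      have : F.coeff w = -(f.coeff w) := by
        simp only [F, coeff_add, coeff_single, coeff_smul, Finsupp.add_apply,
          Finsupp.smul_apply, smul_eq_mul]
        rw [Finsupp.single_eq_of_ne hw]
        ring
      rw [this, v_neg hS]
    have hb : Bend (trop v '' (I : Set (AddMonoidAlgebra K M))) (trop v F)
        ((trop v F).erase u) :=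
      RingCon.le_ringConGen _ _ ⟨_, ⟨F, hFI, rfl⟩, u, huF, rfl, rfl⟩
    have hb2 := (Bend (trop v '' (I : Set (AddMonoidAlgebra K M)))).add
      ((Bend (trop v '' (I : Set (AddMonoidAlgebra K M)))).mul
        ((Bend (trop v '' (I : Set (AddMonoidAlgebra K M)))).refl (single 0 c)) hb)
      ((Bend (trop v '' (I : Set (AddMonoidAlgebra K M)))).refl h)
    have e1 : single 0 c * trop v F + h = single u c + h := by
      ext w
      rw [coeff_add, coeff_add, Finsupp.add_apply, Finsupp.add_apply, coeff_single_zero_mul]
      simp only [trop, Finsupp.mapRange_apply, coeff_single]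
      by_cases hw : w = u
      · subst hw
        rw [hFu, mul_one, Finsupp.single_eq_same]
      · rw [Finsupp.single_eq_of_ne hw, zero_add, hFw w hw, hbd]
    have e2 : single 0 c * (trop v F).erase u + h = h := by
      ext w
      rw [coeff_add, Finsupp.add_apply, coeff_single_zero_mul]
      simp only [trop, coeff_erase]
      by_cases hw : w = u
      · subst hw
        rw [Finsupp.erase_same, mul_zero, zero_add]
      · rw [Finsupp.erase_ne hw, Finsupp.mapRange_apply, hFw w hw, hbd]
    rwa [e1, e2] at hb2

lemma absorb_of_ball (hI : ∀ f, π f = 0 ↔ f ∈ I) (hS : ∀ a b : S, a + b = a ∨ a + b = b)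
    (hv : ∀ a b : K, v (a + b) + (v a + v b) = v a + v b)
    (g h : AddMonoidAlgebra S M) (hgh : ∀ s, ball π v g s ⊆ ball π v h s) :
    Bend (trop v '' (I : Set (AddMonoidAlgebra K M))) (g + h) h := by
  classical
  set B := Bend (trop v '' (I : Set (AddMonoidAlgebra K M))) with hB
  have h1 : ∀ w ∈ g.coeff.support, B (single w (g.coeff w) + h) h := by
    intro w hw
    have hw' : g.coeff w ≠ 0 := by simpa using hw
    apply absorb_term hI hS hv h w _ hw'
    apply hgh
    refine ⟨single w 1, rfl, fun u => ?_⟩
    rw [coeff_single]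
    by_cases hu : u = w
    · subst hu
      rw [Finsupp.single_eq_same, map_one, inv_mul_cancel₀ hw', idem_of hS]
    · rw [Finsupp.single_eq_of_ne hu, map_zero, zero_add]
  have h2 : ∑ w ∈ g.coeff.support, single w (g.coeff w) = g := by
    conv_rhs => rw [← sum_coeff_single g]
    rfl
  have h5 : ∀ s : Finset M, s ⊆ g.coeff.support →
      B (∑ w ∈ s, single w (g.coeff w) + h) h := by
    intro s
    induction s using Finset.induction_on with
    | empty => intro _; simpa using B.refl h
    | insert w s hws ih =>
      intro hs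
      rw [Finset.sum_insert hws, add_assoc]
      have h6 := B.add (B.refl (single w (g.coeff w)))
        (ih ((Finset.subset_insert _ _).trans hs))
      exact B.trans h6 (h1 w (hs (Finset.mem_insert_self _ _)))
  have h6 := h5 _ subset_rfl
  rwa [h2] at h6

/-- Classes of terms are cancellative. -/
lemma term_cancel [IsDomain R] (hI : ∀ f, π f = 0 ↔ f ∈ I)
    (hS : ∀ a b : S, a + b = a ∨ a + b = b)
    (hv : ∀ a b : K, v (a + b) + (v a + v b) = v a + v b)
    (hmon : ∀ (c : K) (u : M), c ≠ 0 → single u c ∉ I)
    (hbin : ∀ (c d : K) (u w : M), c ≠ 0 → d ≠ 0 → u ≠ w → single u c + single w d ∉ I)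
    (m : M) (a : S) (ha : a ≠ 0) (g h : AddMonoidAlgebra S M)
    (hgh : Bend (trop v '' (I : Set (AddMonoidAlgebra K M))) (single m a * g)
      (single m a * h)) :
    Bend (trop v '' (I : Set (AddMonoidAlgebra K M))) g h := by
  have hX0 : ∀ u, X π u ≠ 0 := fun u h => hmon 1 u one_ne_zero ((hI _).1 h)
  have hM : ∀ m u w : M, m + u = m + w → u = w := by
    intro m u w hmuw
    by_contra huw
    apply hbin 1 (-1) u w one_ne_zero (neg_ne_zero.2 one_ne_zero) huw
    rw [← hI, map_add]
    have h8 : (single w (-1) : AddMonoidAlgebra K M) = (-1 : K) • single w 1 := by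
      rw [smul_single, smul_eq_mul, mul_one]
    rw [h8, map_smul, neg_smul, one_smul]
    change X π u + -X π w = 0
    have h9 : X π m * X π u = X π m * X π w := by rw [← X_add, ← X_add, hmuw]
    rw [mul_left_cancel₀ (hX0 m) h9, add_neg_cancel]
  have h1 := ball_of_Bend hI hS hv hM hgh
  have h2 : ∀ s, ball π v g s = ball π v h s := by
    intro s
    ext r
    have h3 := Set.ext_iff.1 (h1 (s * a⁻¹)) (X π m * r)
    rw [ball_single_mul hM, ball_single_mul hM, mul_assoc, inv_mul_cancel₀ ha, mul_one] at h3
    constructor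
    · intro hr
      obtain ⟨r', hr', hrr⟩ := h3.1 ⟨r, hr, rfl⟩
      rwa [mul_left_cancel₀ (hX0 m) hrr]
    · intro hr
      obtain ⟨r', hr', hrr⟩ := h3.2 ⟨r, hr, rfl⟩
      rwa [mul_left_cancel₀ (hX0 m) hrr]
  have h3 := absorb_of_ball hI hS hv g h (fun s => (h2 s).subset)
  have h4 := absorb_of_ball hI hS hv h g (fun s => (h2 s).symm.subset)
  rw [add_comm h g] at h4
  exact (Bend _).trans ((Bend _).symm h4) h3

end Ball

/-- The characterization of the cancellative elements. -/
theorem main {S K M : Type*} [Semifield S] [Field K] [AddCommMonoid M]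
    (hS : ∀ a b : S, a + b = a ∨ a + b = b)
    (v : K →*₀ S) (hv : ∀ a b : K, v (a + b) + (v a + v b) = v a + v b)
    (I : Ideal (AddMonoidAlgebra K M)) (hI : I.IsPrime)
    (hmon : ∀ (c : K) (u : M), c ≠ 0 → single u c ∉ I)
    (hbin : ∀ (c d : K) (u w : M), c ≠ 0 → d ≠ 0 → u ≠ w → single u c + single w d ∉ I)
    (x : (Bend (trop v '' (I : Set (AddMonoidAlgebra K M)))).Quotient) :
    (∀ g h : (Bend (trop v '' (I : Set (AddMonoidAlgebra K M)))).Quotient,
      x * g = x * h → g = h) ↔
    ∃ (a : S) (u : M), a ≠ 0 ∧ x = (single u a : AddMonoidAlgebra S M) := by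
  classical
  let π : AddMonoidAlgebra K M →ₐ[K] AddMonoidAlgebra K M ⧸ I := Ideal.Quotient.mkₐ K I
  have hπ : ∀ f, π f = 0 ↔ f ∈ I := fun f => Ideal.Quotient.eq_zero_iff_mem
  have hS' : ∀ a : S, a + a = a := idem_of hS
  have hdom : IsDomain (AddMonoidAlgebra K M ⧸ I) := Ideal.Quotient.isDomain I
  constructor
  · intro hx
    induction x using Quotient.inductionOn' with
    | h g =>
    change ∀ a b : (Bend (trop v '' (I : Set (AddMonoidAlgebra K M)))).Quotient,
      (g : (Bend (trop v '' (I : Set (AddMonoidAlgebra K M)))).Quotient) * a =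
      (g : (Bend (trop v '' (I : Set (AddMonoidAlgebra K M)))).Quotient) * b → a = b at hx
    by_cases hg : g = 0
    · exfalso
      subst hg
      have h1 := hx 0 1 (by rw [RingCon.coe_zero, zero_mul, zero_mul])
      rw [← RingCon.coe_zero, ← RingCon.coe_one, RingCon.eq] at h1
      have h2 := Phi_of_Bend (fun f hf => (hπ f).2 hf) hS' v h1
      rw [map_zero, map_one] at h2
      exact zero_ne_one h2
    · have hne : g.coeff.support.Nonempty := by
        rw [Finset.nonempty_iff_ne_empty, Ne, Finsupp.support_eq_empty]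
        intro h
        exact hg (by ext u; simp [h])
      obtain ⟨u, hu⟩ := hne
      refine ⟨g.coeff u, u, by simpa using hu, ?_⟩
      have h1 : g = single u (g.coeff u) := by
        ext w
        by_cases hw : w = u
        · subst hw; simp
        · rw [coeff_single, Finsupp.single_eq_of_ne hw]
          by_contra hgw
          exact false_of_two hπ hS' v hmon hbin g hx w u hw (by simpa using hgw) hu
      change (g : (Bend (trop v '' (I : Set (AddMonoidAlgebra K M)))).Quotient) = _
      rw [← h1]
  · rintro ⟨a, u, ha, rfl⟩ g h hgh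
    induction g using Quotient.inductionOn' with
    | h g =>
    induction h using Quotient.inductionOn' with
    | h h =>
    change (g : (Bend (trop v '' (I : Set (AddMonoidAlgebra K M)))).Quotient) = h
    rw [RingCon.eq]
    apply term_cancel hπ hS hv hmon hbin u a ha
    rw [← RingCon.eq]
    exact hgh

end Pool.Agent.Lib.C58a9d8
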